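import Pool.Agent.TH225.CK.H

set_option autoImplicit false

/-!
# MP_5168f5: the full Kakeya maximal function on co-monotone functions

Split the coordinates of some orthonormal basis of `ℝ^n` into blocks of at most two coordinates.
A function `f` is called co-monotone here if `|f|` is an arbitrary function of the coordinates of
one block and of one quantity `u k` for each other block, and is nonincreasing in each of these
quantities, where `u k` is an arbitrary measurable function of the coordinates of the block `k`.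
All products of functions of the single blocks are of this kind.  The supremum in the maximal
function is over ALL tubes of dimensions `1 × δ`.  On these functions the estimate of the Kakeya
maximal conjecture holds at the critical exponent `n` with a logarithmic loss in `δ`.
-/

open MeasureTheory Set Filter Topology ENNReal NNReal Metric

namespace Pool.Agent.Results.MP_5168f5_an.ComonotoneFunctions

/-- The closed tube of length `1` and radius `δ` with centre `b` and axis direction `e`. -/
def tube {n : ℕ} (δ : ℝ) (e b : EuclideanSpace ℝ (Fin n)) : Set (EuclideanSpace ℝ (Fin n)) :=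
  {y | |inner ℝ (y - b) e| ≤ 1 / 2 ∧ ‖(y - b) - (inner ℝ (y - b) e : ℝ) • e‖ ≤ δ}

/-- The Kakeya maximal function. -/
noncomputable def kakeyaMax {n : ℕ} (δ : ℝ) (f : EuclideanSpace ℝ (Fin n) → ℝ)
    (e : EuclideanSpace ℝ (Fin n)) : ℝ≥0∞ :=
  ⨆ a : EuclideanSpace ℝ (Fin n), (volume (tube δ e a))⁻¹ * ∫⁻ y in tube δ e a, ‖f y‖ₑ

/-- `β` distributes the coordinates into blocks; every block has at most two coordinates. -/
def SmallBlocks {n : ℕ} (β : Fin n → ℕ) : Prop :=
  ∀ k, Fintype.card {i // β i = k} ≤ 2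

/-- `g` depends only on the coordinates of the block `k`. -/
def DependsOn {n : ℕ} (β : Fin n → ℕ) (k : ℕ) (g : EuclideanSpace ℝ (Fin n) → ℝ) : Prop :=
  ∀ x y : EuclideanSpace ℝ (Fin n), (∀ i, β i = k → x i = y i) → g x = g y

/-- In suitable orthonormal coordinates (the rotation `R`) there are blocks of at most two
coordinates and measurable functions `u k` of the coordinates of the block `k` such that `|f|` does
not decrease if the coordinates of the block `0` are kept and no `u k` with `k ≠ 0` increases. -/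
def Comonotone {n : ℕ} (f : EuclideanSpace ℝ (Fin n) → ℝ) : Prop :=
  ∃ (R : EuclideanSpace ℝ (Fin n) ≃ₗᵢ[ℝ] EuclideanSpace ℝ (Fin n)) (β : Fin n → ℕ)
    (u : ℕ → EuclideanSpace ℝ (Fin n) → ℝ),
    SmallBlocks β ∧ (∀ k, Measurable (u k)) ∧ (∀ k, DependsOn β k (u k)) ∧
    ∀ x y : EuclideanSpace ℝ (Fin n), (∀ i, β i = 0 → x i = y i) →
      (∀ k, k ≠ 0 → u k y ≤ u k x) → |f (R x)| ≤ |f (R y)|

/-- In suitable orthonormal coordinates `f` is a product of measurable functions of blocks of at
most two coordinates. -/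
def TensorProduct {n : ℕ} (f : EuclideanSpace ℝ (Fin n) → ℝ) : Prop :=
  ∃ (R : EuclideanSpace ℝ (Fin n) ≃ₗᵢ[ℝ] EuclideanSpace ℝ (Fin n)) (β : Fin n → ℕ) (s : Finset ℕ)
    (g : ℕ → EuclideanSpace ℝ (Fin n) → ℝ),
    SmallBlocks β ∧ (∀ k, Measurable (g k)) ∧ (∀ k, DependsOn β k (g k)) ∧
    ∀ x, f (R x) = ∏ k ∈ s, g k x

theorem comonotone_of_tensor {n : ℕ} {f : EuclideanSpace ℝ (Fin n) → ℝ} (h : TensorProduct f) :
    Comonotone f := by
  obtain ⟨R, β, s, g, hβ, hgm, hgd, hf⟩ := h
  refine ⟨R, β, fun k x => - |g k x|, hβ, fun k => ?_, fun k x y hxy => ?_, ?_⟩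
  · have := (hgm k).abs
    exact this.neg
  · simp only
    rw [hgd k x y hxy]
  · intro x y h0 hu
    rw [hf, hf, Finset.abs_prod, Finset.abs_prod]
    apply Finset.prod_le_prod (fun _ _ => abs_nonneg _)
    intro k _
    by_cases hk : k = 0
    · subst hk
      rw [hgd 0 x y h0]
    · have := hu k hk
      simp only [neg_le_neg_iff] at this
      exact this

open Pool.Agent.TH225.CK

theorem mem_tube_iff {n : ℕ} (R : EuclideanSpace ℝ (Fin n) ≃ₗᵢ[ℝ] EuclideanSpace ℝ (Fin n))
    (δ : ℝ) (e a z : EuclideanSpace ℝ (Fin n)) :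
    R z ∈ tube δ e a ↔ z ∈ tube δ (R.symm e) (R.symm a) := by
  have h1 : R z - a = R (z - R.symm a) := by rw [map_sub, R.apply_symm_apply]
  have h2 : (inner ℝ (R (z - R.symm a)) e : ℝ) = inner ℝ (z - R.symm a) (R.symm e) := by
    conv_lhs => rw [← R.apply_symm_apply e]
    exact R.inner_map_map _ _
  have h3 : ∀ c : ℝ, ‖R (z - R.symm a) - c • e‖ = ‖(z - R.symm a) - c • R.symm e‖ := by
    intro c
    conv_lhs => rw [← R.apply_symm_apply e, ← map_smul, ← map_sub]
    exact R.norm_map _
  simp only [tube, Set.mem_ofPred_eq, h1, h2, h3]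

theorem isClosed_tube {n : ℕ} (δ : ℝ) (e a : EuclideanSpace ℝ (Fin n)) :
    IsClosed (tube δ e a) := by
  have c1 : Continuous (fun y : EuclideanSpace ℝ (Fin n) => |(inner ℝ (y - a) e : ℝ)|) := by
    fun_prop
  have c2 : Continuous (fun y : EuclideanSpace ℝ (Fin n) =>
    ‖(y - a) - (inner ℝ (y - a) e : ℝ) • e‖) := by fun_prop
  exact (isClosed_le c1 continuous_const).inter (isClosed_le c2 continuous_const)

theorem main (m : ℕ) : ∃ (C : ℝ) (c : ℕ), 0 < C ∧
    ∀ (δ : ℝ) (f : EuclideanSpace ℝ (Fin (m + 1)) → ℝ), 0 < δ → δ < 1 → Measurable f →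
      Comonotone f →
      ∫⁻ e : sphere (0 : EuclideanSpace ℝ (Fin (m + 1))) 1, kakeyaMax δ f e ^ (m + 1)
          ∂(volume : Measure (EuclideanSpace ℝ (Fin (m + 1)))).toSphere
        ≤ ENNReal.ofReal (C * (1 + Real.log (1 / δ)) ^ c) *
          ∫⁻ y, ‖f y‖ₑ ^ (m + 1) := by
  obtain ⟨C, c, hC, hmain⟩ := main_ind (m + 1)
  obtain ⟨c0, hc0, hvol⟩ := Pool.Agent.H742R2.Kk.volume_tube m
  set K : ℝ := 2 * 6 ^ (m + 1) / c0 with hK
  have hK0 : 0 < K := by positivity
  refine ⟨2 ^ m * (2 * K ^ (m + 1)) * (C + 2 ^ (m + 1)), c, by positivity, ?_⟩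
  intro δ f hδ hδ1 hf hS
  obtain ⟨R, β, u, hβ, hum, hud, hfu⟩ := hS
  have hlog : 0 ≤ Real.log (1 / δ) := Real.log_nonneg (by rw [le_div_iff₀ hδ]; linarith)
  set G : (Fin (m + 1) → ℝ) → ℝ≥0∞ := fun x => ‖f (R (WithLp.toLp 2 x))‖ₑ with hG
  have hGm : Measurable G := by
    apply Measurable.enorm
    apply hf.comp
    exact R.continuous.measurable.comp (WithLp.measurable_toLp 2 _)
  have hG' : ∀ y : EuclideanSpace ℝ (Fin (m + 1)), G (fun i => y i) = ‖f (R y)‖ₑ := fun y => rfl
  have hCo : CoMono β G := by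
    refine ⟨fun k x => u k (WithLp.toLp 2 x), fun k => (hum k).comp (WithLp.measurable_toLp 2 _),
      fun k x y hxy => hud k _ _ hxy, ?_⟩
    intro x y h0 hu
    have h := hfu (WithLp.toLp 2 x) (WithLp.toLp 2 y) h0 hu
    simp only [hG, ← ofReal_norm, Real.norm_eq_abs]
    exact ENNReal.ofReal_le_ofReal h
  have hmpR : MeasurePreserving R := R.measurePreserving
  have hmpL : MeasurePreserving
      (fun y : EuclideanSpace ℝ (Fin (m + 1)) => (fun i => y i : Fin (m + 1) → ℝ)) :=
    PiLp.volume_preserving_ofLp (Fin (m + 1))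
  set I := ∫⁻ y, ‖f y‖ₑ ^ (m + 1) with hI
  have hGI : ∫⁻ y, G y ^ (m + 1) = I := by
    rw [← hmpL.lintegral_comp (hGm.pow_const _)]
    simp only [hG']
    exact hmpR.lintegral_comp (hf.enorm.pow_const _)
  -- the estimate on the cube
  have hcube : ∫⁻ v, NN (3 * δ) G v ^ (m + 1) ∂(cu (Fin (m + 1))) ≤
      ENNReal.ofReal ((C + 2 ^ (m + 1)) * (1 + Real.log (1 / δ)) ^ c) * I := by
    rcases le_or_gt (3 * δ) 1 with h3 | h3
    · refine (hmain (m + 1) (by omega) le_rfl (Fin (m + 1)) (Fintype.card_fin _) β hβ (3 * δ)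
        (by positivity) h3 G hGm hCo).trans ?_
      rw [hGI]
      gcongr ?_ * _
      apply ENNReal.ofReal_le_ofReal
      have h4 : Real.log (1 / (3 * δ)) ≤ Real.log (1 / δ) := by
        apply Real.log_le_log (by positivity)
        apply one_div_le_one_div_of_le hδ
        linarith
      have h5 : 0 ≤ Real.log (1 / (3 * δ)) :=
        Real.log_nonneg (by rw [le_div_iff₀ (by positivity)]; linarith)
      gcongr
      have : (0 : ℝ) < 2 ^ (m + 1) := by positivity
      linarith
    · calc ∫⁻ v, NN (3 * δ) G v ^ (m + 1) ∂(cu (Fin (m + 1)))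
          ≤ ∫⁻ _, I ∂(cu (Fin (m + 1))) := by
            apply lintegral_mono
            intro v
            refine (NN_sq_le (by positivity) hGm v (by omega)).trans ?_
            rw [hGI]
            calc ((ENNReal.ofReal (2 * (3 * δ)))⁻¹) ^ Fintype.card (Fin (m + 1)) * I
                ≤ 1 ^ Fintype.card (Fin (m + 1)) * I := by
                  gcongr
                  rw [ENNReal.inv_le_one, ← ENNReal.ofReal_one]
                  exact ENNReal.ofReal_le_ofReal (by linarith)
              _ = I := by rw [one_pow, one_mul]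
        _ = ENNReal.ofReal (2 ^ (m + 1)) * I := by
            rw [lintegral_const, cu_univ, Fintype.card_fin, mul_comm,
              ENNReal.ofReal_pow (by norm_num), ENNReal.ofReal_ofNat]
        _ ≤ _ := by
            gcongr ?_ * _
            apply ENNReal.ofReal_le_ofReal
            have h5 : (1 : ℝ) ≤ (1 + Real.log (1 / δ)) ^ c := one_le_pow₀ (by linarith)
            have h6 : (0 : ℝ) < 2 ^ (m + 1) := by positivity
            nlinarith
  -- the pointwise bound
  have hpt : ∀ (e : EuclideanSpace ℝ (Fin (m + 1))) (t : ℝ), ‖e‖ = 1 → t ∈ Icc (1 / 2 : ℝ) 1 →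
      kakeyaMax δ f e ≤ ENNReal.ofReal K * NN (3 * δ) G (fun i => (R.symm (t • e)) i) := by
    intro e t he ht
    apply iSup_le
    intro a
    have he' : ‖R.symm e‖ = 1 := by rw [R.symm.norm_map, he]
    have h1 : (volume (tube δ e a))⁻¹ ≤ ENNReal.ofReal ((c0 * δ ^ m)⁻¹) := by
      rw [ENNReal.ofReal_inv_of_pos (by positivity)]
      exact ENNReal.inv_le_inv.2 (hvol δ e a hδ he)
    have h2 : ∫⁻ y in tube δ e a, ‖f y‖ₑ =
        ∫⁻ z in tube δ (R.symm e) (R.symm a), G (fun i => z i) := by
      rw [← lintegral_indicator (isClosed_tube _ _ _).measurableSet,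
        ← lintegral_indicator (isClosed_tube _ _ _).measurableSet,
        ← hmpR.lintegral_comp (hf.enorm.indicator (isClosed_tube _ _ _).measurableSet)]
      apply lintegral_congr
      intro z
      by_cases hz : R z ∈ tube δ e a
      · rw [indicator_of_mem hz, indicator_of_mem ((mem_tube_iff R δ e a z).1 hz)]
      · rw [indicator_of_notMem hz,
          indicator_of_notMem (fun h => hz ((mem_tube_iff R δ e a z).2 h))]
    have h3 := int_tube hδ hδ1.le (e := R.symm e) (a := R.symm a) he' hGm ht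
    rw [h2]
    calc (volume (tube δ e a))⁻¹ *
          ∫⁻ z in tube δ (R.symm e) (R.symm a), G (fun i => z i)
        ≤ ENNReal.ofReal ((c0 * δ ^ m)⁻¹) * (ENNReal.ofReal (2 * (6 * δ) ^ (m + 1) / δ) *
          NN (3 * δ) G (fun i => (t • R.symm e) i)) := mul_le_mul' h1 h3
      _ = _ := by
          rw [← mul_assoc, ← ENNReal.ofReal_mul (by positivity), map_smul]
          congr 2
          rw [hK]
          field_simp
          ring
  -- the shell
  set g : EuclideanSpace ℝ (Fin (m + 1)) → ℝ≥0∞ :=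
    fun x => 2 * ENNReal.ofReal (K ^ (m + 1)) *
      NN (3 * δ) G (fun i => (R.symm x) i) ^ (m + 1) with hg
  have hNm : Measurable (NN (3 * δ) G) := measurable_NN (by positivity) hGm
  have hmpRs : MeasurePreserving R.symm := R.symm.measurePreserving
  have hgm' : Measurable (fun x : EuclideanSpace ℝ (Fin (m + 1)) =>
      NN (3 * δ) G (fun i => (R.symm x) i) ^ (m + 1)) :=
    (hNm.comp (hmpL.measurable.comp hmpRs.measurable)).pow_const _
  have hgm : Measurable g := hgm'.const_mul _
  have hhalf : ∀ e : sphere (0 : EuclideanSpace ℝ (Fin (m + 1))) 1,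
      kakeyaMax δ f e ^ (m + 1) ≤ ∫⁻ t in Icc (1 / 2 : ℝ) 1,
        g (t • (e : EuclideanSpace ℝ (Fin (m + 1)))) := by
    intro e
    have he : ‖(e : EuclideanSpace ℝ (Fin (m + 1)))‖ = 1 := by simp
    calc kakeyaMax δ f e ^ (m + 1)
        = ∫⁻ _ in Icc (1 / 2 : ℝ) 1, 2 * kakeyaMax δ f e ^ (m + 1) := by
          rw [lintegral_const, Measure.restrict_apply_univ, Real.volume_Icc]
          have : ENNReal.ofReal (1 - 1 / 2) = 2⁻¹ := by
            rw [← ENNReal.ofReal_ofNat, ← ENNReal.ofReal_inv_of_pos (by norm_num)]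
            norm_num
          rw [this, mul_comm (2 : ℝ≥0∞), mul_assoc, ENNReal.mul_inv_cancel (by norm_num)
            (by norm_num), mul_one]
      _ ≤ _ := by
          apply setLIntegral_mono' measurableSet_Icc
          intro t ht
          simp only [hg]
          rw [mul_assoc]
          gcongr
          rw [ENNReal.ofReal_pow hK0.le, ← mul_pow]
          gcongr
          exact hpt e t he ht
  have hball : ∫⁻ x in closedBall (0 : EuclideanSpace ℝ (Fin (m + 1))) 1,
      NN (3 * δ) G (fun i => (R.symm x) i) ^ (m + 1) ≤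
        ∫⁻ v, NN (3 * δ) G v ^ (m + 1) ∂(cu (Fin (m + 1))) := by
    have hm3 : Measurable (fun v => (box (Fin (m + 1)) 1).indicator
        (fun v => NN (3 * δ) G v ^ (m + 1)) v) :=
      (hNm.pow_const _).indicator (measurableSet_box 1)
    have hm4 : Measurable (fun y : EuclideanSpace ℝ (Fin (m + 1)) =>
        (box (Fin (m + 1)) 1).indicator (fun v => NN (3 * δ) G v ^ (m + 1)) (fun i => y i)) :=
      hm3.comp hmpL.measurable
    rw [cu_eq]
    change _ ≤ ∫⁻ v in box (Fin (m + 1)) 1, NN (3 * δ) G v ^ (m + 1)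
    rw [← lintegral_indicator (measurableSet_box 1), ← hmpL.lintegral_comp hm3,
      ← hmpRs.lintegral_comp hm4, ← lintegral_indicator measurableSet_closedBall]
    apply lintegral_mono
    intro x
    by_cases hx : x ∈ closedBall (0 : EuclideanSpace ℝ (Fin (m + 1))) 1
    · rw [indicator_of_mem hx]
      have hmem : (fun i => (R.symm x) i : Fin (m + 1) → ℝ) ∈ box (Fin (m + 1)) 1 := by
        intro i _
        apply abs_le.1
        rw [mem_closedBall_zero_iff] at hx
        have h1 := PiLp.norm_apply_le (R.symm x) i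
        rw [R.symm.norm_map, Real.norm_eq_abs] at h1
        exact h1.trans hx
      beta_reduce
      rw [indicator_of_mem hmem]
    · rw [indicator_of_notMem hx]
      exact zero_le
  calc ∫⁻ e : sphere (0 : EuclideanSpace ℝ (Fin (m + 1))) 1, kakeyaMax δ f e ^ (m + 1)
          ∂(volume : Measure (EuclideanSpace ℝ (Fin (m + 1)))).toSphere
      ≤ ∫⁻ e : sphere (0 : EuclideanSpace ℝ (Fin (m + 1))) 1, (∫⁻ t in Icc (1 / 2 : ℝ) 1,
          g (t • (e : EuclideanSpace ℝ (Fin (m + 1)))))
          ∂(volume : Measure (EuclideanSpace ℝ (Fin (m + 1)))).toSphere := lintegral_mono hhalf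
    _ ≤ ENNReal.ofReal (2 ^ m) *
          ∫⁻ x in closedBall (0 : EuclideanSpace ℝ (Fin (m + 1))) 1, g x := shell m hgm
    _ = ENNReal.ofReal (2 ^ m) * (2 * ENNReal.ofReal (K ^ (m + 1)) *
          ∫⁻ x in closedBall (0 : EuclideanSpace ℝ (Fin (m + 1))) 1,
            NN (3 * δ) G (fun i => (R.symm x) i) ^ (m + 1)) := by
        rw [lintegral_const_mul _ hgm']
    _ ≤ ENNReal.ofReal (2 ^ m) * (2 * ENNReal.ofReal (K ^ (m + 1)) *
          (ENNReal.ofReal ((C + 2 ^ (m + 1)) * (1 + Real.log (1 / δ)) ^ c) * I)) := by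
        gcongr
        exact hball.trans hcube
    _ = _ := by
        rw [← ENNReal.ofReal_ofNat, ← mul_assoc, ← mul_assoc, ← ENNReal.ofReal_mul (by positivity),
          ← ENNReal.ofReal_mul (by positivity), ← ENNReal.ofReal_mul (by positivity)]
        congr 2
        ring

/-- **The Kakeya maximal estimate on co-monotone functions**, in all dimensions `n ≥ 3`, at the
critical exponent `n`, with a logarithmic loss; and all products of functions of at most two
coordinates each are co-monotone. -/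
theorem result (n : ℕ) (hn : 3 ≤ n) : (∃ (C : ℝ) (c : ℕ), 0 < C ∧
    ∀ (δ : ℝ) (f : EuclideanSpace ℝ (Fin n) → ℝ), 0 < δ → δ < 1 → Measurable f → Comonotone f →
      ∫⁻ e : sphere (0 : EuclideanSpace ℝ (Fin n)) 1, kakeyaMax δ f e ^ n
          ∂(volume : Measure (EuclideanSpace ℝ (Fin n))).toSphere
        ≤ ENNReal.ofReal (C * (1 + Real.log (1 / δ)) ^ c) * ∫⁻ y, ‖f y‖ₑ ^ n) ∧
    ∀ f : EuclideanSpace ℝ (Fin n) → ℝ, TensorProduct f → Comonotone f := by
  obtain ⟨m, rfl⟩ : ∃ m, n = m + 1 := ⟨n - 1, by omega⟩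
  exact ⟨main m, fun f hf => comonotone_of_tensor hf⟩

end Pool.Agent.Results.MP_5168f5_an.ComonotoneFunctions
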