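import Pool.Agent.TH705.RR.MaxF
set_option autoImplicit false

/-!
# The Kakeya maximal estimate for tubes with rotated positions

`n ≥ 2`.  In its linearised form the Kakeya maximal conjecture bounds the averages of `|f|` over the
tubes `T_e^δ(a(e))`, for an arbitrary measurable choice `a(e)` of the centres.  Decouple centres and
directions by ONE rotation `g`: all centres are moved by `g`, the directions are kept.  Then for
almost every `g` (Haar measure of `O(n)`, or of any compact group acting transitively on the unit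
sphere) the conjectured estimates hold, for all functions `f` and all scales `δ` simultaneously,
with logarithmic losses only: at the critical exponent `p = n` with `(1 + log (1/δ))^(n+4)`, and at
`2 ≤ p ≤ n` with the sharp power `δ^(-(n-p))`; from `L^p` to `L^p` of the directions outside a set
of arbitrarily small measure (which depends on `g` only), and from `L^p` to `L^(p/2)` of all
directions.  Both follow from an estimate with a weight `U ≥ 1` whose mean is bounded by a constant
that does not depend on the centres.  It holds for laws of `g` of dimension `α`, for families of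
directions of dimension `β`, and the centres may depend on the dyadic scale.
-/

open MeasureTheory Metric
open scoped ENNReal

namespace Pool.Agent.Results.MP_5168f5_an.MaximalRotations

/-- The space `ℝ^n`. -/
abbrev Rn (n : ℕ) : Type := EuclideanSpace ℝ (Fin n)

/-- The linear isometries of `ℝ^n` (as a group: the orthogonal group). -/
abbrev Iso (n : ℕ) : Type := Rn n ≃ₗᵢ[ℝ] Rn n

/-- The image `g v` of the vector `v` under the isometry `g`. -/
noncomputable def ap {n : ℕ} (g : Iso n) (v : Rn n) : Rn n := g v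

/-- The unit sphere. -/
abbrev Sph (n : ℕ) : Type := sphere (0 : Rn n) 1

/-- The surface measure on the unit sphere. -/
noncomputable def surf (n : ℕ) : Measure (Sph n) := (volume : Measure (Rn n)).toSphere

/-- `g` is a measurable family of isometries (a random isometry). -/
def Random {n : ℕ} {Ω : Type} [MeasurableSpace Ω] (g : Ω → Iso n) : Prop :=
  ∀ v : Rn n, Measurable (fun ω => ap (g ω) v)

/-- The law of the image `g v` of every unit vector `v` under the random isometry `g` has dimension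
at least `α`, uniformly, with constant `A`. -/
def Spread {n : ℕ} {Ω : Type} [MeasurableSpace Ω] (P : Measure Ω) (g : Ω → Iso n) (A α : ℝ) : Prop :=
  ∀ v w : Rn n, ‖v‖ = 1 → ‖w‖ = 1 → ∀ s : ℝ, 0 < s →
    P {ω | ‖ap (g ω) v - w‖ ≤ s} ≤ ENNReal.ofReal (A * s ^ α)

/-- `e` is a measurable family of unit vectors (directions), whose distribution has dimension at
least `β`, with constant `B`. -/
def Directions {n : ℕ} {V : Type} [MeasurableSpace V] (ν : Measure V) (e : V → Rn n) (B β : ℝ) :
    Prop :=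
  Measurable e ∧ (∀ v, ‖e v‖ = 1) ∧
    ∀ u : Rn n, ‖u‖ = 1 → ∀ r : ℝ, 0 < r → ν {v | ‖e v - u‖ ≤ r} ≤ ENNReal.ofReal (B * r ^ β)

/-- The closed cylinder of length `2 H` and radius `δ` with centre `c` and axis in direction `e`
(for `H = 1/2` the tube of the problem). -/
def tube {n : ℕ} (H δ : ℝ) (c e : Rn n) : Set (Rn n) :=
  {y | |inner ℝ (y - c) e| ≤ H ∧ ‖(y - c) - (inner ℝ (y - c) e) • e‖ ≤ δ}

/-- The average of `|f|` over the cylinder. -/
noncomputable def avg {n : ℕ} (f : Rn n → ℝ) (H δ : ℝ) (c e : Rn n) : ℝ≥0∞ :=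
  (∫⁻ y in tube H δ c e, ‖f y‖ₑ) / volume (tube H δ c e)

/-- The integral of `|f|^p`. -/
noncomputable def normp {n : ℕ} (f : Rn n → ℝ) (p : ℝ) : ℝ≥0∞ := ∫⁻ x, ‖f x‖ₑ ^ p

/-- The weighted estimate, for all `p ≥ 2`, all functions `f` and all scales `δ ≤ 1`, for the
cylinders with centres `b j v` (where `2^(-(j+1)) < δ ≤ 2^(-j)`) and directions `e v`. -/
def Weighted {n : ℕ} {V : Type} [MeasurableSpace V] (ν : Measure V) (U : V → ℝ≥0∞)
    (b : ℕ → V → Rn n) (e : V → Rn n) (H γ : ℝ) (C : ℝ → ℝ) : Prop :=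
  ∀ p : ℝ, 2 ≤ p → ∀ f : Rn n → ℝ, AEMeasurable f volume → ∀ (j : ℕ) (δ : ℝ),
    (1 / 2) ^ (j + 1) < δ → δ ≤ (1 / 2) ^ j →
    ∫⁻ v, avg f H δ (b j v) (e v) ^ p / U v ∂ν ≤
      ENNReal.ofReal (C p * ((j : ℝ) + 1) ^ (p + 4) * δ ^ (-(max ((n : ℝ) - 1 - γ) (n - p)))) *
        normp f p

/-- The estimate from `L^p` to `L^(p/s)`, for all `p ≥ 2`, all functions `f` and all scales
`0 < δ < 1`, with the loss `(1 + log (1/δ))^(p+4) δ^(-max 0 (n-p))`. -/
def Strong {n : ℕ} (σ : Measure (Sph n)) (b : Sph n → Rn n) (H s : ℝ) (C : ℝ → ℝ) : Prop :=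
  ∀ p : ℝ, 2 ≤ p → ∀ f : Rn n → ℝ, AEMeasurable f volume → ∀ δ : ℝ, 0 < δ → δ < 1 →
    (∫⁻ e, avg f H δ (b e) e ^ (p / s) ∂σ) ^ s ≤
      ENNReal.ofReal (C p * (1 + Real.log (1 / δ)) ^ (p + 4) * δ ^ (-(max 0 ((n : ℝ) - p)))) *
        normp f p

/-- The family of the cylinders with centres `b e` and directions `e` satisfies the strong type
estimates from `L^p` to `L^p` outside small sets of directions, and from `L^p` to `L^(p/2)`. -/
def Good {n : ℕ} (b : Sph n → Rn n) (H : ℝ) : Prop :=
  (∀ η : ℝ, 0 < η → ∃ (S : Set (Sph n)) (C : ℝ → ℝ), MeasurableSet S ∧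
      surf n Sᶜ ≤ ENNReal.ofReal η ∧ Strong ((surf n).restrict S) b H 1 C) ∧
    ∃ C : ℝ → ℝ, Strong (surf n) b H 2 C

/-- `ρ` is an action of the group `G` by linear isometries of `ℝ^n`. -/
def Action {n : ℕ} {G : Type} [Group G] (ρ : G → Iso n) : Prop :=
  ∀ (k l : G) (v : Rn n), ap (ρ (k * l)) v = ap (ρ k) (ap (ρ l) v)

/-- `ρ` is continuous in `k` and transitive on the unit sphere. -/
def Transitive {n : ℕ} {G : Type} [TopologicalSpace G] (ρ : G → Iso n) : Prop :=
  (∀ v : Rn n, Continuous (fun k => ap (ρ k) v)) ∧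
    ∀ v w : Rn n, ‖v‖ = 1 → ‖w‖ = 1 → ∃ k, ap (ρ k) v = w

/-- **The Kakeya maximal estimate for tubes with rotated positions.** -/
theorem result (n : ℕ) (hn : 2 ≤ n) :
    -- (1) laws of dimension `α`, directions of dimension `β`: the estimate with a weight of bounded
    -- mean; the constants depend on `n, A, α, B, β, m, H` only
    (∀ A α B β m H : ℝ, 0 ≤ A → 0 ≤ α → 0 ≤ B → 0 ≤ β → 0 ≤ m → 1 / 2 ≤ H →
      ∃ (K : ℝ) (C : ℝ → ℝ), ∀ (V : Type) [MeasurableSpace V] (ν : Measure V) [IsFiniteMeasure ν]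
        (e : V → Rn n) (a : ℕ → V → Rn n), ν Set.univ ≤ ENNReal.ofReal m →
        Directions ν e B β → (∀ j, Measurable (a j)) →
      ∀ (Ω : Type) [MeasurableSpace Ω] (P : Measure Ω) [IsProbabilityMeasure P] (g : Ω → Iso n),
        Random g → Spread P g A α →
      ∃ U : Ω → V → ℝ≥0∞, Measurable (fun z : Ω × V => U z.1 z.2) ∧ (∀ ω v, 1 ≤ U ω v) ∧
        ∫⁻ ω, ∫⁻ v, U ω v ∂ν ∂P ≤ ENNReal.ofReal K ∧
        ∀ ω, Weighted ν (U ω) (fun j v => ap (g ω) (a j v)) e H (min α β) C) ∧
    -- (2) compact groups acting transitively on the unit sphere, for instance `O(n)` or `SO(n)`,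
    -- with the normalised Haar measure, and all directions
    (∀ (G : Type) [Group G] [TopologicalSpace G] [IsTopologicalGroup G] [CompactSpace G]
      [MeasurableSpace G] [BorelSpace G] (μ : Measure G) [μ.IsHaarMeasure] [IsProbabilityMeasure μ]
      (ρ : G → Iso n), Action ρ → Transitive ρ → ∀ a : Sph n → Rn n, Measurable a →
      ∀ H : ℝ, 1 / 2 ≤ H → ∀ᵐ k ∂μ, Good (fun e => ap (ρ k) (a e)) H) ∧
    -- (3) in particular (from `O(n)`): for every measurable choice of the centres there is a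
    -- rotation of the centres for which the estimates hold
    (∀ a : Sph n → Rn n, Measurable a → ∀ H : ℝ, 1 / 2 ≤ H →
      ∃ g : Iso n, Good (fun e => ap g (a e)) H) := by
  obtain ⟨κ, hκ, hvol⟩ := TH705.RR.vol_low (n := n) (by omega)
  have hpow : ∀ H : ℝ, H + 1 ≤ 2 ^ (⌈H⌉₊ + 1) := by
    intro H
    have h1 : H ≤ ⌈H⌉₊ := Nat.le_ceil H
    have h2 : ⌈H⌉₊ + 1 < 2 ^ (⌈H⌉₊ + 1) := Nat.lt_two_pow_self
    have h3 : ((⌈H⌉₊ + 1 : ℕ) : ℝ) < ((2 ^ (⌈H⌉₊ + 1) : ℕ) : ℝ) := by exact_mod_cast h2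
    push_cast at h3
    linarith
  have h2 : ∀ (G : Type) [Group G] [TopologicalSpace G] [IsTopologicalGroup G] [CompactSpace G]
      [MeasurableSpace G] [BorelSpace G] (μ : Measure G) [μ.IsHaarMeasure] [IsProbabilityMeasure μ]
      (ρ : G → Iso n), Action ρ → Transitive ρ → ∀ a : Sph n → Rn n, Measurable a →
      ∀ H : ℝ, 1 / 2 ≤ H → ∀ᵐ k ∂μ, Good (fun e => ap (ρ k) (a e)) H := by
    intro G _ _ _ _ _ _ μ _ _ ρ hact hρ a ha H hH
    obtain ⟨hρ, htr⟩ := hρ
    have hn1 : (0 : ℝ) < (n : ℝ) - 1 := by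
      have : (2 : ℝ) ≤ n := by exact_mod_cast hn
      linarith
    have hm : ∀ v, Measurable (fun k => ρ k v) := fun v => (hρ v).measurable
    have hsp : Spread μ ρ (5 * 2 ^ n) ((n : ℝ) - 1) :=
      TH705.RR.spread_group (by omega) μ (MonoidHom.mk' ρ (fun k l => by
        ext v : 1
        exact hact k l v)) hm htr
    have hv := TH705.RR.vb_pos n
    have hfin : IsFiniteMeasure (surf n) := by
      unfold surf
      infer_instance
    have hF := TH705.RR.surf_frost (n := n) (by omega)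
    have hem : Measurable (fun w : Sph n => (w : Rn n)) := measurable_subtype_coe
    have he1 : ∀ w : Sph n, ‖(w : Rn n)‖ = 1 := fun v => by simp
    set h : ℕ := ⌈H⌉₊ with hh
    set U : G → Sph n → ℝ≥0∞ := fun k v => TH705.RR.tot (surf n) ((n : ℝ) - 1) h (ρ k)
      (fun _ => a) (fun w : Sph n => (w : Rn n)) v with hU
    have hUm : ∀ k, Measurable (U k) := fun k =>
      TH705.RR.tot_meas1 (surf n) (fun _ => ha) hem _ _
    have hU1 : ∀ k v, 1 ≤ U k v := fun k v => TH705.RR.one_le_tot _ _ _ _ _ _ v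
    have hmean := TH705.RR.tot_mean (ν := surf n) (P := μ) (g := ρ) (n := n) (by omega) hm
      (a := fun _ => a) (fun _ => ha) hem he1 (by positivity) (by positivity) hn1.le le_rfl le_rfl
      hsp hF le_rfl h
    have hfinU : ∀ᵐ k ∂μ, ∫⁻ v, U k v ∂(surf n) < ∞ := by
      apply ae_lt_top
      · exact (TH705.RR.tot_meas (surf n) hm (a := fun _ => a) (fun _ => ha) hem
          ((n : ℝ) - 1) h).lintegral_prod_right'
      · exact (hmean.trans_lt ENNReal.ofReal_lt_top).ne
    set C0 : ℝ → ℝ := fun p => TH705.RR.CC n κ p h (surf n Set.univ).toReal * 2 ^ (p + 4) with hC0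
    have hmax : ∀ (k : G) (p : ℝ), 2 ≤ p → ∀ f : Rn n → ℝ, AEMeasurable f volume →
        ∀ δ : ℝ, 0 < δ → δ < 1 →
        ∫⁻ e, avg f H δ (ap (ρ k) (a e)) e ^ p / U k e ∂(surf n) ≤
        ENNReal.ofReal (C0 p * (1 + Real.log (1 / δ)) ^ (p + 4) * δ ^ (-(max 0 ((n : ℝ) - p)))) *
          normp f p := by
      intro k p hp f hf δ hδ0 hδ1
      have h1 := TH705.RR.max_all (n := n) (by omega) hκ hvol hH (hpow H) (surf n) le_rfl
        (g := ρ k) ha hem he1 hn1.le hp hf.enorm hδ0 hδ1
      rw [sub_self] at h1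
      refine h1.trans (le_of_eq ?_)
      unfold normp
      congr 2
      simp only [hC0]
      ring
    filter_upwards [hfinU] with k hk
    constructor
    · intro η hη
      set N : ℝ := ((∫⁻ v, U k v ∂(surf n)).toReal + 1) / η with hN
      have hN0 : 0 < N := by positivity
      have hSm : MeasurableSet {v | U k v < ENNReal.ofReal N} :=
        measurableSet_lt (hUm k) measurable_const
      refine ⟨{v | U k v < ENNReal.ofReal N}, fun p => N * C0 p, hSm, ?_, ?_⟩
      · have h1 := mul_meas_ge_le_lintegral (μ := surf n) (hUm k) (ENNReal.ofReal N)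
        have h3 : {v | U k v < ENNReal.ofReal N}ᶜ = {v | ENNReal.ofReal N ≤ U k v} := by
          ext v
          simp
        rw [h3]
        have h4 : ∫⁻ v, U k v ∂(surf n) ≤ ENNReal.ofReal (N * η) := by
          have e1 : N * η = (∫⁻ v, U k v ∂(surf n)).toReal + 1 := by
            rw [hN]
            field_simp
          rw [e1]
          conv_lhs => rw [← ENNReal.ofReal_toReal hk.ne]
          apply ENNReal.ofReal_le_ofReal
          linarith
        have h5 : ENNReal.ofReal N * surf n {v | ENNReal.ofReal N ≤ U k v} ≤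
            ENNReal.ofReal N * ENNReal.ofReal η := by
          rw [← ENNReal.ofReal_mul hN0.le]
          exact h1.trans h4
        exact (ENNReal.mul_le_mul_iff_right (ENNReal.ofReal_pos.2 hN0).ne'
          ENNReal.ofReal_ne_top).1 h5
      · intro p hp f hf δ hδ0 hδ1
        rw [ENNReal.rpow_one, div_one]
        refine (TH705.RR.on_set (surf n) (hU1 k) ENNReal.ofReal_ne_top hSm
          (fun v hv => (le_of_lt hv)) _ p).trans ?_
        refine (mul_le_mul' le_rfl (hmax k p hp f hf δ hδ0 hδ1)).trans (le_of_eq ?_)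
        rw [← mul_assoc, ← ENNReal.ofReal_mul hN0.le]
        congr 2
        ring
    · refine ⟨fun p => (∫⁻ v, U k v ∂(surf n)).toReal * C0 p, ?_⟩
      intro p hp f hf δ hδ0 hδ1
      have hb : Measurable (fun e : Sph n => ρ k (a e)) := (ρ k).continuous.measurable.comp ha
      refine (TH705.RR.half (surf n) (hUm k) (hU1 k) hk.ne
        (TH705.RR.avg_meas H δ hb hem hf.enorm) p).trans ?_
      refine (mul_le_mul' le_rfl (hmax k p hp f hf δ hδ0 hδ1)).trans (le_of_eq ?_)
      conv_lhs => rw [← ENNReal.ofReal_toReal hk.ne]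
      rw [← mul_assoc, ← ENNReal.ofReal_mul ENNReal.toReal_nonneg]
      congr 2
      ring
  refine ⟨?_, h2, ?_⟩
  · intro A α B β m H hA hα hB hβ hm hH
    refine ⟨TH705.RR.Kt n A B β (min α β) ⌈H⌉₊ m, fun p => TH705.RR.CC n κ p ⌈H⌉₊ m, ?_⟩
    intro V _ ν _ e a hν hdir ha Ω _ P _ g hg hsp
    obtain ⟨hem, he, hF⟩ := hdir
    have hνm : (ν Set.univ).toReal ≤ m := ENNReal.toReal_le_of_le_ofReal hm hν
    refine ⟨fun ω v => TH705.RR.tot ν (min α β) ⌈H⌉₊ (g ω) a e v,
      TH705.RR.tot_meas ν hg ha hem _ _, fun ω v => TH705.RR.one_le_tot _ _ _ _ _ _ v,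
      TH705.RR.tot_mean (by omega) hg ha hem he hA hB (le_min hα hβ) (min_le_left _ _)
        (min_le_right _ _) hsp hF hνm _, ?_⟩
    intro ω p hp f hf j δ hδ1 hδ2
    exact TH705.RR.max_det (by omega) hκ hvol hH (hpow H) ν hνm (g := g ω) ha hem he
      (le_min hα hβ) hp hf.enorm hδ1 hδ2
  · intro a ha H hH
    let _ : MeasurableSpace (TH705.RR.On n) := borel _
    have _ : BorelSpace (TH705.RR.On n) := ⟨rfl⟩
    let K : TopologicalSpace.PositiveCompacts (TH705.RR.On n) := ⊤
    have hK : Measure.haarMeasure K Set.univ = 1 := by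
      exact Measure.haarMeasure_self (K₀ := K)
    have _ : IsProbabilityMeasure (Measure.haarMeasure K) := ⟨hK⟩
    have h3 := h2 (TH705.RR.On n) (Measure.haarMeasure K) (TH705.RR.act n)
      (fun k l v => rfl)
      ⟨TH705.RR.act_cont, TH705.RR.act_trans⟩ a ha H hH
    obtain ⟨k, hk⟩ := h3.exists
    exact ⟨TH705.RR.act n k, hk⟩

end Pool.Agent.Results.MP_5168f5_an.MaximalRotations
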