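import Pool.Agent.TH970.Kr.Step3

set_option autoImplicit false

/-!
# MP_5168f5: the Kakeya maximal function on radially regular functions

In `ℝ^3` let `f` be ANY measurable function and let `g` dominate the values of `f` on the pieces
of rays, that is `|f (p + t (x - p))| ≤ |g x|` for all `x` and all `1 ≤ t ≤ 2` (for instance
`g x` is the supremum of `|f|` over the points `p + t (x - p)`, `1 ≤ t ≤ 2`; if `|f|` does not
increase along rays from `p` one can take `g = f`; no condition at all on the dependence on the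
direction of `x - p`).  Then the estimate of the Kakeya maximal conjecture holds at the critical
exponent `3`, with a logarithmic loss in `δ`, with the norm of `g` on the right.  In `ℝ^n` the
same holds at the critical exponent `n` if in addition `f` is solid in the first `n - 3`
coordinates and the condition above is imposed for the dilations of the last three coordinates.
The supremum in the maximal function is over ALL tubes of dimensions `1 × δ`.
-/

open MeasureTheory Set Filter Topology ENNReal NNReal Metric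

namespace Pool.Agent.Results.MP_5168f5_an.RadiallyRegular

/-- The closed tube of length `1` and radius `δ` with centre `b` and axis direction `e`. -/
def tube {n : ℕ} (δ : ℝ) (e b : EuclideanSpace ℝ (Fin n)) : Set (EuclideanSpace ℝ (Fin n)) :=
  {y | |inner ℝ (y - b) e| ≤ 1 / 2 ∧ ‖(y - b) - (inner ℝ (y - b) e : ℝ) • e‖ ≤ δ}

/-- The Kakeya maximal function. -/
noncomputable def kakeyaMax {n : ℕ} (δ : ℝ) (f : EuclideanSpace ℝ (Fin n) → ℝ)
    (e : EuclideanSpace ℝ (Fin n)) : ℝ≥0∞ :=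
  ⨆ a : EuclideanSpace ℝ (Fin n), (volume (tube δ e a))⁻¹ * ∫⁻ y in tube δ e a, ‖f y‖ₑ

/-- `|f|` does not decrease if each of the first `n - 3` coordinates is moved closer to the
corresponding coordinate of `p` (or kept at the same distance) and the last three coordinates are
kept.  For `n = 3` this is no condition. -/
def SolidAbout {n : ℕ} (p : EuclideanSpace ℝ (Fin n)) (f : EuclideanSpace ℝ (Fin n) → ℝ) : Prop :=
  ∀ x y : EuclideanSpace ℝ (Fin n), (∀ i : Fin n, i.val + 3 < n → |y i - p i| ≤ |x i - p i|) →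
    (∀ i : Fin n, n ≤ i.val + 3 → y i = x i) → |f x| ≤ |f y|

/-- `|g|` at a point dominates `|f|` at all points that arise from it by a dilation about `p`,
with a factor between `1` and `2`, of the last three coordinates. -/
def DominatedAlongRays {n : ℕ} (p : EuclideanSpace ℝ (Fin n))
    (f g : EuclideanSpace ℝ (Fin n) → ℝ) : Prop :=
  ∀ (x y : EuclideanSpace ℝ (Fin n)) (t : ℝ), 1 ≤ t → t ≤ 2 →
    (∀ i : Fin n, i.val + 3 < n → x i = y i) →
    (∀ i : Fin n, n ≤ i.val + 3 → x i - p i = t * (y i - p i)) → |f x| ≤ |g y|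

open Pool.Agent.TH970.Kr Pool.Agent.W767.Sd in
theorem main (m : ℕ) (hm : 2 ≤ m) : ∃ C : ℝ, 0 < C ∧
    ∀ (δ : ℝ) (p : EuclideanSpace ℝ (Fin (m + 1))) (f g : EuclideanSpace ℝ (Fin (m + 1)) → ℝ),
      0 < δ → δ < 1 → Measurable f → Measurable g → SolidAbout p f → DominatedAlongRays p f g →
      ∫⁻ e : sphere (0 : EuclideanSpace ℝ (Fin (m + 1))) 1, kakeyaMax δ f e ^ (m + 1)
          ∂(volume : Measure (EuclideanSpace ℝ (Fin (m + 1)))).toSphere
        ≤ ENNReal.ofReal (C * (1 + Real.log (1 / δ)) ^ ((m + 1) ^ 2)) *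
          ∫⁻ y, ‖g y‖ₑ ^ (m + 1) := by
  obtain ⟨C, hC, hmain⟩ := rad_all m hm
  obtain ⟨c, hc, hvol⟩ := Pool.Agent.H742R2.Kk.volume_tube m
  refine ⟨(c⁻¹) ^ (m + 1) * ((m:ℝ) + 1) * C, by positivity, ?_⟩
  intro δ p f g hδ hδ1 hf hg hS hR
  have hlog : 0 ≤ Real.log (1 / δ) := Real.log_nonneg (by rw [le_div_iff₀ hδ]; linarith)
  have hfp : Measurable (fun y : EuclideanSpace ℝ (Fin (m + 1)) => f (y + p)) :=
    hf.comp (measurable_id.add_const p)
  have hgp : Measurable (fun y : EuclideanSpace ℝ (Fin (m + 1)) => g (y + p)) :=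
    hg.comp (measurable_id.add_const p)
  have hSE : Solid3 (fun y : EuclideanSpace ℝ (Fin (m + 1)) => ‖f (y + p)‖ₑ) := by
    intro x y h1 h2
    have h := hS (x + p) (y + p) (fun i hi => by simpa using h1 i hi)
      (fun i hi => by simpa using h2 i hi)
    simp only [← ofReal_norm, Real.norm_eq_abs]
    exact ENNReal.ofReal_le_ofReal h
  have hRE : Rad3 (fun y : EuclideanSpace ℝ (Fin (m + 1)) => ‖f (y + p)‖ₑ)
      (fun y => ‖g (y + p)‖ₑ) := by
    intro x y t ht1 ht2 h1 h2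
    have h := hR (x + p) (y + p) t ht1 ht2 (fun i hi => by simpa using h1 i hi)
      (fun i hi => by simpa using h2 i hi)
    simp only [← ofReal_norm, Real.norm_eq_abs]
    exact ENNReal.ofReal_le_ofReal h
  obtain ⟨M, hMm, hMle, hMint⟩ := hmain δ hδ hδ1.le (fun y => ‖f (y + p)‖ₑ)
    (fun y => ‖g (y + p)‖ₑ) hfp.enorm hgp.enorm hSE hRE
  have hpt : ∀ e : sphere (0 : EuclideanSpace ℝ (Fin (m + 1))) 1,
      kakeyaMax δ f e ^ (m + 1) ≤ ENNReal.ofReal ((c⁻¹) ^ (m + 1)) * M e := by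
    intro e
    have he : ‖(e : EuclideanSpace ℝ (Fin (m + 1)))‖ = 1 := by simp
    unfold kakeyaMax
    rw [ENNReal.iSup_pow]
    apply iSup_le
    intro a
    have h1 : (volume (tube δ (e : EuclideanSpace ℝ (Fin (m + 1))) a))⁻¹ ≤
        ENNReal.ofReal c⁻¹ * (ENNReal.ofReal δ ^ m)⁻¹ := by
      have h2 := hvol δ e a hδ he
      calc (volume (tube δ (e : EuclideanSpace ℝ (Fin (m + 1))) a))⁻¹
          ≤ (ENNReal.ofReal (c * δ ^ m))⁻¹ := ENNReal.inv_le_inv.2 h2
        _ = ENNReal.ofReal c⁻¹ * (ENNReal.ofReal δ ^ m)⁻¹ := by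
            rw [ENNReal.ofReal_mul hc.le, ENNReal.mul_inv (Or.inr ENNReal.ofReal_ne_top)
              (Or.inl ENNReal.ofReal_ne_top), ENNReal.ofReal_inv_of_pos hc,
              ENNReal.ofReal_pow hδ.le]
    have h3 : ∫⁻ y in tube δ (e : EuclideanSpace ℝ (Fin (m + 1))) a, ‖f y‖ₑ ≤
        ∫⁻ y in cyl δ 1 (e : EuclideanSpace ℝ (Fin (m + 1))) (a - p), ‖f (y + p)‖ₑ := by
      have hmt : MeasurableSet (cyl δ 1 (e : EuclideanSpace ℝ (Fin (m + 1))) a) :=
        (isClosed_cyl _ _ _ _).measurableSet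
      have hmt' : MeasurableSet (cyl δ 1 (e : EuclideanSpace ℝ (Fin (m + 1))) (a - p)) :=
        (isClosed_cyl _ _ _ _).measurableSet
      calc ∫⁻ y in tube δ (e : EuclideanSpace ℝ (Fin (m + 1))) a, ‖f y‖ₑ
          ≤ ∫⁻ y in cyl δ 1 (e : EuclideanSpace ℝ (Fin (m + 1))) a, ‖f y‖ₑ := by
            apply lintegral_mono_set
            rintro y ⟨hy1, hy2⟩
            exact ⟨by linarith, hy2⟩
        _ = ∫⁻ y, (cyl δ 1 (e : EuclideanSpace ℝ (Fin (m + 1))) a).indicator
              (fun y => ‖f y‖ₑ) y := (lintegral_indicator hmt _).symm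
        _ = ∫⁻ y, (cyl δ 1 (e : EuclideanSpace ℝ (Fin (m + 1))) a).indicator
              (fun y => ‖f y‖ₑ) (y + p) := (lintegral_add_right_eq_self _ p).symm
        _ = ∫⁻ y, (cyl δ 1 (e : EuclideanSpace ℝ (Fin (m + 1))) (a - p)).indicator
              (fun y => ‖f (y + p)‖ₑ) y := by
            apply lintegral_congr
            intro y
            have hiff : y + p ∈ cyl δ 1 (e : EuclideanSpace ℝ (Fin (m + 1))) a ↔
                y ∈ cyl δ 1 (e : EuclideanSpace ℝ (Fin (m + 1))) (a - p) := by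
              have e1 : y + p - a = y - (a - p) := by abel
              simp only [cyl, Set.mem_ofPred_eq, e1]
            by_cases hy : y ∈ cyl δ 1 (e : EuclideanSpace ℝ (Fin (m + 1))) (a - p)
            · rw [indicator_of_mem hy, indicator_of_mem (hiff.2 hy)]
            · rw [indicator_of_notMem hy, indicator_of_notMem (fun h => hy (hiff.1 h))]
        _ = _ := lintegral_indicator hmt' _
    calc ((volume (tube δ (e : EuclideanSpace ℝ (Fin (m + 1))) a))⁻¹ *
          ∫⁻ y in tube δ (e : EuclideanSpace ℝ (Fin (m + 1))) a, ‖f y‖ₑ) ^ (m + 1)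
        ≤ (ENNReal.ofReal c⁻¹ * ((ENNReal.ofReal δ ^ m)⁻¹ *
          ∫⁻ y in cyl δ 1 (e : EuclideanSpace ℝ (Fin (m + 1))) (a - p), ‖f (y + p)‖ₑ)) ^
            (m + 1) := by
          rw [← mul_assoc]
          gcongr
      _ = ENNReal.ofReal c⁻¹ ^ (m + 1) * ((ENNReal.ofReal δ ^ m)⁻¹ *
          ∫⁻ y in cyl δ 1 (e : EuclideanSpace ℝ (Fin (m + 1))) (a - p), ‖f (y + p)‖ₑ) ^ (m + 1) :=
          mul_pow _ _ _
      _ ≤ _ := by
          rw [ENNReal.ofReal_pow (by positivity)]
          gcongr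
          exact hMle e (a - p) he
  have hgint : ∫⁻ y, ‖g (y + p)‖ₑ ^ (m + 1) = ∫⁻ y, ‖g y‖ₑ ^ (m + 1) :=
    lintegral_add_right_eq_self (fun y => ‖g y‖ₑ ^ (m + 1)) p
  rw [hgint] at hMint
  calc ∫⁻ e : sphere (0 : EuclideanSpace ℝ (Fin (m + 1))) 1, kakeyaMax δ f e ^ (m + 1)
          ∂(volume : Measure (EuclideanSpace ℝ (Fin (m + 1)))).toSphere
      ≤ ∫⁻ e : sphere (0 : EuclideanSpace ℝ (Fin (m + 1))) 1,
          ENNReal.ofReal ((c⁻¹) ^ (m + 1)) * M e
          ∂(volume : Measure (EuclideanSpace ℝ (Fin (m + 1)))).toSphere := lintegral_mono hpt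
    _ = ENNReal.ofReal ((c⁻¹) ^ (m + 1)) *
          ∫⁻ e : sphere (0 : EuclideanSpace ℝ (Fin (m + 1))) 1, M e
          ∂(volume : Measure (EuclideanSpace ℝ (Fin (m + 1)))).toSphere :=
        lintegral_const_mul' _ _ ENNReal.ofReal_ne_top
    _ ≤ ENNReal.ofReal ((c⁻¹) ^ (m + 1)) * (((m:ℝ≥0∞) + 1) *
          ∫⁻ x in closedBall (0 : EuclideanSpace ℝ (Fin (m + 1))) 1, M (‖x‖⁻¹ • x)) := by
        gcongr
        exact Pool.Agent.H742R2.Kk.sphere_le_ball m hMm
    _ ≤ ENNReal.ofReal ((c⁻¹) ^ (m + 1)) * (ENNReal.ofReal ((m:ℝ) + 1) *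
          (ENNReal.ofReal (C * (1 + Real.log (1 / δ)) ^ ((m + 1) ^ 2)) *
            ∫⁻ y, ‖g y‖ₑ ^ (m + 1))) := by
        have e5 : ((m:ℝ≥0∞) + 1) = ENNReal.ofReal ((m:ℝ) + 1) := by
          rw [ENNReal.ofReal_add (by positivity) (by norm_num)]; simp
        rw [e5]
        gcongr
    _ = _ := by
        rw [← mul_assoc, ← mul_assoc, ← ENNReal.ofReal_mul (by positivity),
          ← ENNReal.ofReal_mul (by positivity)]
        congr 2
        ring

/-- **The Kakeya maximal estimate for radially regular functions**, in all dimensions `n ≥ 3`, at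
the critical exponent `n`, with a logarithmic loss.  For `n = 3` the hypothesis on `f` and `g` is
`|f (p + t (x - p))| ≤ |g x|` for `1 ≤ t ≤ 2` only. -/
theorem result (n : ℕ) (hn : 3 ≤ n) : ∃ C : ℝ, 0 < C ∧
    ∀ (δ : ℝ) (p : EuclideanSpace ℝ (Fin n)) (f g : EuclideanSpace ℝ (Fin n) → ℝ),
      0 < δ → δ < 1 → Measurable f → Measurable g → SolidAbout p f → DominatedAlongRays p f g →
      ∫⁻ e : sphere (0 : EuclideanSpace ℝ (Fin n)) 1, kakeyaMax δ f e ^ n
          ∂(volume : Measure (EuclideanSpace ℝ (Fin n))).toSphere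
        ≤ ENNReal.ofReal (C * (1 + Real.log (1 / δ)) ^ (n ^ 2)) * ∫⁻ y, ‖g y‖ₑ ^ n := by
  obtain ⟨m, rfl⟩ : ∃ m, n = m + 1 := ⟨n - 1, by omega⟩
  exact main m (by omega)

/-- The case `n = 3`, for functions that do not increase along the rays from a point `p` and have
an arbitrary dependence on the direction. -/
theorem three : ∃ C : ℝ, 0 < C ∧
    ∀ (δ : ℝ) (p : EuclideanSpace ℝ (Fin 3)) (f : EuclideanSpace ℝ (Fin 3) → ℝ),
      0 < δ → δ < 1 → Measurable f → (∀ x, ∀ t : ℝ, 1 ≤ t → |f (p + t • (x - p))| ≤ |f x|) →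
      ∫⁻ e : sphere (0 : EuclideanSpace ℝ (Fin 3)) 1, kakeyaMax δ f e ^ 3
          ∂(volume : Measure (EuclideanSpace ℝ (Fin 3))).toSphere
        ≤ ENNReal.ofReal (C * (1 + Real.log (1 / δ)) ^ 9) * ∫⁻ y, ‖f y‖ₑ ^ 3 := by
  obtain ⟨C, hC, h⟩ := result 3 le_rfl
  refine ⟨C, hC, fun δ p f hδ hδ1 hf hr => h δ p f f hδ hδ1 hf hf ?_ ?_⟩
  · intro x y _ h2
    have e : y = x := by
      ext i
      exact h2 i (by omega)
    rw [e]
  · intro x y t ht1 _ _ h2
    have e : x = p + t • (y - p) := by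
      ext i
      have := h2 i (by omega)
      simp only [PiLp.add_apply, PiLp.smul_apply, PiLp.sub_apply, smul_eq_mul]
      linarith
    rw [e]
    exact hr y t ht1

end Pool.Agent.Results.MP_5168f5_an.RadiallyRegular
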