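import Pool.Agent.TH539.GMax

set_option autoImplicit false

/-!
# MP_5168f5: the Kakeya maximal function on functions with semialgebraic slices

Write points of `ℝ^n`, `n = d + 1`, as `(t, y)`, with height `t` and `y ∈ ℝ^d`.  We consider functions
`f` such that for every `r > 0` and almost every height `t` the set `{y : |f (t, y)| > r}` is
covered by `N` semialgebraic pieces of degree at most `D`, whose total volume is at most `M` times its
volume.  If these sets are unions of `N` such pieces this holds with `M = N`.  There is no condition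
on the dependence on `t`: `f` need not be a semialgebraic function on `ℝ^n`.  The case `D = 0` is that
of covers by `N` convex sets.

For these functions the Kakeya maximal estimate holds

* for `p > n`, for directions with `|e 0| ≥ κ`, with no loss in the width `δ`, and also for
  segments (width zero) which are chosen measurably;
* for the critical exponent `p = n`, for all directions, with a logarithmic loss.

The supremum in the maximal function is over all tubes of the given direction.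
-/

open MeasureTheory Set ENNReal NNReal Metric

namespace Pool.Agent.Results.MP_5168f5_an.SemialgebraicSlicedFunctions

/-- The space `ℝ^(d+1)`. -/
abbrev Space (d : ℕ) : Type := EuclideanSpace ℝ (Fin (d + 1))

/-- The unit sphere of `ℝ^(d+1)`. -/
abbrev Direction (d : ℕ) : Type := sphere (0 : Space d) 1

/-- The surface measure of the unit sphere. -/
noncomputable def surf (d : ℕ) : Measure (Direction d) :=
  (volume : Measure (Space d)).toSphere

/-- The slice of `A ⊆ ℝ^(d+1)` at height `t`: the set of all `y ∈ ℝ^d` with `(t, y) ∈ A`. -/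
def slice {d : ℕ} (A : Set (Space d)) (t : ℝ) : Set (Fin d → ℝ) :=
  {y | WithLp.toLp 2 (Fin.cons t y : Fin (d + 1) → ℝ) ∈ A}

/-- `B ⊆ ℝ^d` is given by finitely many polynomial inequalities `P i > 0` and `Q j ≥ 0`, the total
degrees of the polynomials adding up to at most `D`. -/
def Basic {d : ℕ} (D : ℕ) (B : Set (Fin d → ℝ)) : Prop :=
  ∃ (a b : ℕ) (P : Fin a → MvPolynomial (Fin d) ℝ) (Q : Fin b → MvPolynomial (Fin d) ℝ),
    ∑ i, (P i).totalDegree + ∑ j, (Q j).totalDegree ≤ D ∧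
    B = {x | (∀ i, 0 < MvPolynomial.eval x (P i)) ∧ ∀ j, 0 ≤ MvPolynomial.eval x (Q j)}

/-- A piece of degree `D`: a basic semialgebraic set of degree at most `D`, and for `D = 0` a convex
set. -/
def Piece {d : ℕ} (D : ℕ) (B : Set (Fin d → ℝ)) : Prop := if D = 0 then Convex ℝ B else Basic D B

/-- `A` is covered by `N` (possibly empty) pieces of degree `D` whose volumes add up to at
most `m`. -/
def Cover {d : ℕ} (N D : ℕ) (m : ℝ≥0∞) (A : Set (Fin d → ℝ)) : Prop :=
  ∃ B : Fin N → Set (Fin d → ℝ), (∀ j, Piece D (B j)) ∧ A ⊆ ⋃ j, B j ∧ ∑ j, volume (B j) ≤ m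

/-- For every `r > 0`, almost every slice of `{|f| > r}` is covered by `N` pieces of degree `D` of
total volume at most `M` times its volume. -/
def Sliced {d : ℕ} (N D : ℕ) (M : ℝ≥0∞) (f : Space d → ℝ) : Prop :=
  ∀ r : ℝ, 0 < r → ∀ᵐ t : ℝ,
    Cover N D (M * volume (slice {x | r < |f x|} t)) (slice {x | r < |f x|} t)

/-- The closed tube of length `1` and radius `δ` with centre `b` and axis direction `e`. -/
def tube {d : ℕ} (δ : ℝ) (e b : Space d) : Set (Space d) :=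
  {y | |inner ℝ (y - b) e| ≤ 1 / 2 ∧ ‖(y - b) - (inner ℝ (y - b) e : ℝ) • e‖ ≤ δ}

/-- The Kakeya maximal function. -/
noncomputable def kakeyaMax {d : ℕ} (δ : ℝ) (f : Space d → ℝ) (e : Space d) : ℝ≥0∞ :=
  ⨆ a : Space d, (volume (tube δ e a))⁻¹ * ∫⁻ y in tube δ e a, ‖f y‖ₑ

/-- The integral of `|f|` over the unit segment of direction `e` with midpoint `b`. -/
noncomputable def segmentIntegral {d : ℕ} (f : Space d → ℝ) (b e : Space d) : ℝ≥0∞ :=
  ∫⁻ s in Icc (-(1 / 2) : ℝ) (1 / 2), ‖f (b + s • e)‖ₑ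

/-- The directions `e` with `|e 0| ≥ κ`. -/
def Steep (d : ℕ) (κ : ℝ) : Set (Direction d) := {e | κ ≤ |(e : Space d) 0|}

/-- **Kakeya maximal estimates for functions with semialgebraic slices.**  Let
`n = d + 1 ≥ 2`.

1. For `p > n` there is `C` (depending on `n` and `p`) with: for all `f` in the class given by
  `N`, `D` and `M`, all `0 < κ ≤ 1`, all measurable choices `b` of midpoints and all `0 < δ ≤ 1`,
  with `Λ = N^d (D + 1)^(d^2) M`,
  `∫_{|e 0| ≥ κ} (∫_{segment of midpoint b e and direction e} |f|)^p ≤ C (1 + log (1/κ)) Λ ∫ |f|^p`,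
  `∫_{|e 0| ≥ κ} (f^*_δ)^p ≤ C (1 + log (1/κ)) Λ ∫ |f|^p`.
2. There is `C` (depending on `n`) with `∫ (f^*_δ)^n ≤ C (1 + log (1/δ))^(2n+1) Λ ∫ |f|^n`
  for all `f` in the class given by `N ≥ 1`, `D` and `M ≥ 1` and all `0 < δ < 1`; here the integral
  on the left is over the whole sphere. -/
theorem result (d : ℕ) (hd : 1 ≤ d) :
    (∀ p : ℝ, (d:ℝ) + 1 < p → ∃ C : ℝ, 0 < C ∧
      ∀ (f : Space d → ℝ) (N D : ℕ) (M : ℝ≥0∞) (κ : ℝ), Measurable f → Sliced N D M f →
        0 < κ → κ ≤ 1 →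
        (∀ b : Space d → Space d, Measurable b →
          ∫⁻ e in Steep d κ, segmentIntegral f (b e) e ^ p ∂(surf d) ≤
            ENNReal.ofReal (C * (1 + Real.log (1 / κ))) *
              ((N:ℝ≥0∞) ^ d * ((D:ℝ≥0∞) + 1) ^ (d ^ 2) * M * ∫⁻ x, ‖f x‖ₑ ^ p)) ∧
        (∀ δ : ℝ, 0 < δ → δ ≤ 1 →
          ∫⁻ e in Steep d κ, kakeyaMax δ f e ^ p ∂(surf d) ≤
            ENNReal.ofReal (C * (1 + Real.log (1 / κ))) *
              ((N:ℝ≥0∞) ^ d * ((D:ℝ≥0∞) + 1) ^ (d ^ 2) * M * ∫⁻ x, ‖f x‖ₑ ^ p))) ∧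
    (∃ C : ℝ, 0 < C ∧
      ∀ (f : Space d → ℝ) (N D : ℕ) (M : ℝ≥0∞) (δ : ℝ), Measurable f → Sliced N D M f →
        1 ≤ N → 1 ≤ M → 0 < δ → δ < 1 →
        ∫⁻ e : Direction d, kakeyaMax δ f e ^ (d + 1) ∂(surf d) ≤
          ENNReal.ofReal (C * (1 + Real.log (1 / δ)) ^ (2 * d + 3)) *
            ((N:ℝ≥0∞) ^ d * ((D:ℝ≥0∞) + 1) ^ (d ^ 2) * M * ∫⁻ x, ‖f x‖ₑ ^ (d + 1))) := by
  have hcB := Pool.Agent.TH539.SA.cB_pos d
  -- the constant
  have hconst : ∀ (N D : ℕ) (L C C' : ℝ) (M I : ℝ≥0∞), 0 < C → C ≤ C' → 0 ≤ L →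
      ENNReal.ofReal (C * L) * ((N:ℝ≥0∞) ^ d * (Pool.Agent.TH539.SA.lamB d D : ℝ≥0∞) * M * I) ≤
      ENNReal.ofReal (C' * Pool.Agent.TH539.SA.cB d * L) *
        ((N:ℝ≥0∞) ^ d * ((D:ℝ≥0∞) + 1) ^ (d ^ 2) * M * I) := by
    intro N D L C C' M I hC hCC hL
    have hlam := Pool.Agent.TH539.SA.lam_le d N D
    calc ENNReal.ofReal (C * L) * ((N:ℝ≥0∞) ^ d * (Pool.Agent.TH539.SA.lamB d D : ℝ≥0∞) * M * I)
        ≤ ENNReal.ofReal (C' * L) * ((ENNReal.ofReal (Pool.Agent.TH539.SA.cB d) *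
            ((N:ℝ≥0∞) ^ d * ((D:ℝ≥0∞) + 1) ^ (d ^ 2))) * M * I) := by
          gcongr
      _ = _ := by
          have e : C' * (Pool.Agent.TH539.SA.cB d : ℝ) * L =
              (C' * L) * Pool.Agent.TH539.SA.cB d := by ring
          rw [e, ENNReal.ofReal_mul (p := C' * L) (by have := hC.le.trans hCC; positivity)]
          ring
  refine ⟨?_, ?_⟩
  · intro p hp
    obtain ⟨C1, hC1, h1⟩ := Pool.Agent.TH539.Gen.strongSeg hd hp
    obtain ⟨C2, hC2, h2⟩ := Pool.Agent.TH539.Gen.strongP hd hp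
    refine ⟨max C1 C2 * Pool.Agent.TH539.SA.cB d, mul_pos (lt_max_of_lt_left hC1) hcB, ?_⟩
    intro f N D M κ hf hcov hκ hκ1
    have hlog : 0 ≤ Real.log (1 / κ) := Real.log_nonneg (by rw [le_div_iff₀ hκ]; linarith)
    have hL : 0 ≤ 1 + Real.log (1 / κ) := by linarith
    have hV := Pool.Agent.TH539.SA.cover_vel hd N D
    refine ⟨?_, ?_⟩
    · intro b hb
      exact (h1 _ _ hV f M κ b hf hcov hκ hκ1 hb).trans
        (hconst N D _ _ _ _ _ hC1 (le_max_left _ _) hL)
    · intro δ hδ hδ1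
      exact (h2 _ _ hV f M κ δ hf hcov hκ hκ1 hδ hδ1).trans
        (hconst N D _ _ _ _ _ hC2 (le_max_right _ _) hL)
  · obtain ⟨C, hC, h⟩ := Pool.Agent.TH539.Gen.crit hd
    refine ⟨C * Pool.Agent.TH539.SA.cB d, by positivity, ?_⟩
    intro f N D M δ hf hcov hN hM hδ hδ1
    have hlog : 0 ≤ Real.log (1 / δ) := Real.log_nonneg (by rw [le_div_iff₀ hδ]; linarith)
    have hone : (1:ℝ≥0∞) ≤ (N:ℝ≥0∞) ^ d * (Pool.Agent.TH539.SA.lamB d D : ℝ≥0∞) := by
      calc (1:ℝ≥0∞) = 1 * 1 := (one_mul 1).symm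
        _ ≤ _ := mul_le_mul' (one_le_pow₀ (by exact_mod_cast hN))
            (by exact_mod_cast Pool.Agent.TH539.SA.one_le_lamB d D)
    exact (h _ _ (Pool.Agent.TH539.SA.cover_vel hd N D)
      (Pool.Agent.TH539.SA.cover_empty N D) f M δ hf hcov hone hM hδ hδ1).trans
      (hconst N D _ _ _ _ _ hC le_rfl (by positivity))

end Pool.Agent.Results.MP_5168f5_an.SemialgebraicSlicedFunctions
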